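import Pool.Agent.Helper99.SI.StD

/-!
# Project SI, module D5: maximum modulus estimate
-/

set_option autoImplicit false

namespace Pool.Agent.Helper60.SI

open Pool.Agent.Helper99.SI

theorem nsq_eq_sum {ι : Type} (q : ι →₀ ℂ) (T : Finset ι) (h : q.support ⊆ T) :
    nsq q = ∑ μ ∈ T, ‖q μ‖ ^ 2 := by
  unfold nsq
  exact Finsupp.sum_of_support_subset q h _ (by intros; simp)

theorem nsq_smul {ι : Type} (z : ℂ) (q : ι →₀ ℂ) : nsq (z • q) = ‖z‖ ^ 2 * nsq q := by
  rw [nsq_eq_sum (z • q) q.support Finsupp.support_smul, nsq_eq_sum q q.support (Finset.Subset.refl _),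
    Finset.mul_sum]
  refine Finset.sum_congr rfl fun μ _ => ?_
  rw [Finsupp.smul_apply, smul_eq_mul, norm_mul, mul_pow]

/-- the maximum principle for a family of Laurent polynomials with positive exponents -/
theorem maxmod {K W0 : Type} [Fintype K] (J : Finset ℤ) (hJ : ∀ j ∈ J, 1 ≤ j)
    (c : K → ℤ → (W0 →₀ ℂ)) (A : ℝ)
    (h : ∀ z : ℂ, ‖z‖ = 1 → ∑ κ, nsq (∑ j ∈ J, z ^ j • c κ j) ≤ A) (t : ℝ) (ht : 0 < t)
    (ht1 : t ≤ 1) : ∑ κ, nsq (∑ j ∈ J, (t : ℂ) ^ j • c κ j) ≤ t ^ 2 * A := by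
  classical
  set T : Finset W0 := Finset.univ.biUnion fun κ : K => J.biUnion fun j => (c κ j).support with hT
  set a : ℤ → EuclideanSpace ℂ (K × T) := fun j => WithLp.toLp 2 fun x => c x.1 j x.2 with ha
  set H : ℂ → EuclideanSpace ℂ (K × T) := fun z => ∑ j ∈ J, z ^ (j - 1).toNat • a j with hH
  have e1 : ∀ z : ℂ, z ≠ 0 → ∀ κ, ∑ j ∈ J, z ^ j • c κ j =
      z • ∑ j ∈ J, z ^ (j - 1).toNat • c κ j := by
    intro z hz κ
    rw [Finset.smul_sum]
    refine Finset.sum_congr rfl fun j hj => ?_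
    rw [smul_smul]
    congr 1
    rw [← pow_succ']
    have : ((j - 1).toNat + 1 : ℤ) = j := by
      have := hJ j hj
      rw [Int.toNat_of_nonneg (by omega)]
      ring
    rw [← zpow_natCast]
    congr 1
    push_cast
    exact this.symm
  have e2 : ∀ z : ℂ, ‖H z‖ ^ 2 = ∑ κ, nsq (∑ j ∈ J, z ^ (j - 1).toNat • c κ j) := by
    intro z
    rw [EuclideanSpace.norm_sq_eq, Fintype.sum_prod_type]
    refine Finset.sum_congr rfl fun κ _ => ?_
    rw [nsq_eq_sum _ T, ← Finset.sum_coe_sort T]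
    · refine Finset.sum_congr rfl fun μ _ => ?_
      congr 2
      simp only [hH, ha]
      rw [WithLp.ofLp_sum, Finset.sum_apply, Finsupp.finsetSum_apply]
      rfl
    · intro μ hμ
      rw [Finsupp.mem_support_iff, Finsupp.finsetSum_apply] at hμ
      obtain ⟨j, hj, hj2⟩ := Finset.exists_ne_zero_of_sum_ne_zero hμ
      rw [hT, Finset.mem_biUnion]
      refine ⟨κ, Finset.mem_univ _, Finset.mem_biUnion.2 ⟨j, hj, ?_⟩⟩
      rw [Finsupp.mem_support_iff]
      intro h0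
      apply hj2
      rw [Finsupp.smul_apply, h0, smul_zero]
  have e3 : ∀ z : ℂ, z ≠ 0 → ∑ κ, nsq (∑ j ∈ J, z ^ j • c κ j) = ‖z‖ ^ 2 * ‖H z‖ ^ 2 := by
    intro z hz
    rw [e2, Finset.mul_sum]
    refine Finset.sum_congr rfl fun κ _ => ?_
    rw [e1 z hz κ, nsq_smul]
  have hA : 0 ≤ A := by
    refine le_trans ?_ (h 1 (by simp))
    refine Finset.sum_nonneg fun κ _ => ?_
    unfold nsq
    exact Finsupp.sum_nonneg fun _ _ => by positivity
  have hd : Differentiable ℂ H := by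
    simp only [hH]
    fun_prop
  have h4 : ∀ z ∈ frontier (Metric.ball (0 : ℂ) 1), ‖H z‖ ≤ Real.sqrt A := by
    intro z hz
    rw [frontier_ball _ one_ne_zero, mem_sphere_zero_iff_norm] at hz
    have hz0 : z ≠ 0 := by
      intro h0
      rw [h0, norm_zero] at hz
      exact zero_ne_one hz
    have := h z hz
    rw [e3 z hz0, hz, one_pow, one_mul] at this
    exact Real.le_sqrt_of_sq_le this
  have h5 := Complex.norm_le_of_forall_mem_frontier_norm_le Metric.isBounded_ball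
    hd.diffContOnCl h4 (z := (t : ℂ)) (by
      rw [closure_ball _ one_ne_zero, mem_closedBall_zero_iff, Complex.norm_real, Real.norm_eq_abs,
        abs_of_pos ht]
      exact ht1)
  rw [e3 (t : ℂ) (by exact_mod_cast ht.ne'), Complex.norm_real, Real.norm_eq_abs, abs_of_pos ht]
  refine mul_le_mul_of_nonneg_left ?_ (sq_nonneg _)
  calc ‖H t‖ ^ 2 ≤ (Real.sqrt A) ^ 2 := pow_le_pow_left₀ (norm_nonneg _) h5 2
    _ = A := Real.sq_sqrt hA

theorem ip_self {ι : Type} (q : ι →₀ ℂ) : Sys.ip q q = (nsq q : ℂ) := by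
  unfold Sys.ip nsq
  rw [Finsupp.sum, Finsupp.sum]
  push_cast
  refine Finset.sum_congr rfl fun i _ => ?_
  rw [Complex.star_def, Complex.mul_conj, Complex.normSq_eq_norm_sq]
  push_cast
  rfl

theorem ip_add {ι : Type} (p p' q : ι →₀ ℂ) : Sys.ip (p + p') q = Sys.ip p q + Sys.ip p' q := by
  unfold Sys.ip
  exact Finsupp.sum_add_index' (by simp) (by intros; ring)

theorem ip_zero {ι : Type} (q : ι →₀ ℂ) : Sys.ip 0 q = 0 := by
  simp [Sys.ip]

theorem ip_sum {ι K : Type} (s : Finset K) (p : K → (ι →₀ ℂ)) (q : ι →₀ ℂ) :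
    Sys.ip (∑ k ∈ s, p k) q = ∑ k ∈ s, Sys.ip (p k) q := by
  classical
  induction s using Finset.induction_on with
  | empty => simp [ip_zero]
  | insert a s ha ih => rw [Finset.sum_insert ha, Finset.sum_insert ha, ip_add, ih]

/-- D5 -/
theorem hD5 (h1 : StA0) (h2 : StA1) (h3 : StA3) (h4 : StA6) : StD5 := by
  intro n L _ _ _ _ _ D n1 M4 hL t ht ht1 p hp
  classical
  obtain ⟨-, a2, a3, -, -, a6, -, -, -, -⟩ := h1 L D.b
  obtain ⟨-, -, -, -, b5⟩ := h2 n L D
  obtain ⟨-, c2, c3, c4⟩ := h3 n L D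
  -- the level conditions
  have hS : ∀ y : L, (∀ ν : W n, M4 ≤ ν.length → y * D.w ν ∈ D.S) → y * D.emb p ∈ D.S := by
    intro y hy
    rw [Sys.emb, Finsupp.linearCombination_apply, Finsupp.sum, Finset.mul_sum]
    refine Submodule.sum_mem _ fun ν hν => ?_
    rw [mul_smul_comm]
    exact Submodule.smul_mem _ _ (hy ν (hp ν (Finsupp.mem_support_iff.1 hν)))
  set x : (Fin n1 → Fin n) → L := fun κ => D.w (List.ofFn κ) with hx
  have hlen : ∀ κ : Fin n1 → Fin n, (List.ofFn κ).length = n1 := fun κ => by simp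
  set J : Finset ℤ := Finset.univ.biUnion fun κ : Fin n1 → Fin n => (D.b.fin (x κ)).toFinset with hJ
  have hJ1 : ∀ j ∈ J, 1 ≤ j := by
    intro j hj
    rw [hJ, Finset.mem_biUnion] at hj
    obtain ⟨κ, -, hκ⟩ := hj
    rw [Set.Finite.mem_toFinset, Set.mem_ofPred_eq] at hκ
    by_contra hlt
    exact hκ (hL.deg _ (le_of_eq (hlen κ).symm) j (by omega))
  have hev : ∀ (v : ℂ) (κ), D.b.ev v (x κ) = ∑ j ∈ J, v ^ j • D.b.p j (x κ) := by
    intro v κ
    change ∑ᶠ j : ℤ, v ^ j • D.b.p j (x κ) = _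
    refine finsum_eq_sum_of_support_subset _ fun j hj => ?_
    rw [Finset.mem_coe, hJ, Finset.mem_biUnion]
    refine ⟨κ, Finset.mem_univ _, ?_⟩
    rw [Set.Finite.mem_toFinset, Set.mem_ofPred_eq]
    intro h0
    apply hj
    change v ^ j • D.b.p j (x κ) = 0
    rw [h0, smul_zero]
  have hst : ∀ (v : ℂ) (κ), star (D.b.ev v (x κ)) = ∑ j ∈ J, (star v) ^ j • star (D.b.p j (x κ)) := by
    intro v κ
    rw [hev, star_sum]
    refine Finset.sum_congr rfl fun j _ => ?_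
    rw [star_smul, star_zpow₀]
  have hs1 : ∀ (v : ℂ) (κ), star (D.b.ev v (x κ)) * D.emb p ∈ D.S := by
    intro v κ
    refine hS _ fun ν hν => ?_
    rw [hst, Finset.sum_mul]
    refine Submodule.sum_mem _ fun j _ => ?_
    rw [smul_mul_assoc]
    exact Submodule.smul_mem _ _ (hL.l1 ν _ hν (le_of_eq (hlen κ)) j)
  have hs2 : ∀ (v : ℂ) (κ), D.b.ev v (x κ) * star (D.b.ev v (x κ)) * D.emb p ∈ D.S := by
    intro v κ
    refine hS _ fun ν hν => ?_
    rw [hst, hev, Finset.sum_mul, Finset.sum_mul]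
    refine Submodule.sum_mem _ fun i _ => ?_
    rw [Finset.mul_sum, Finset.sum_mul]
    refine Submodule.sum_mem _ fun j _ => ?_
    rw [smul_mul_smul_comm, smul_mul_assoc]
    exact Submodule.smul_mem _ _ (hL.l2 ν _ hν (le_of_eq (hlen κ)) i j)
  have hcf : ∀ (v : ℂ) (κ), D.cf (star (D.b.ev v (x κ)) * D.emb p) =
      ∑ j ∈ J, (star v) ^ j • D.cf (star (D.b.p j (x κ)) * D.emb p) := by
    intro v κ
    rw [hst, Finset.sum_mul, map_sum]
    refine Finset.sum_congr rfl fun j _ => ?_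
    rw [smul_mul_assoc, map_smul]
  -- the unit circle
  have circ : ∀ z : ℂ, ‖z‖ = 1 →
      ∑ κ : Fin n1 → Fin n, nsq (∑ j ∈ J, z ^ j • D.cf (star (D.b.p j (x κ)) * D.emb p)) ≤ nsq p := by
    intro z hz
    have hz0 : z ≠ 0 := by
      intro h0
      rw [h0, norm_zero] at hz
      exact zero_ne_one hz
    set v : ℂ := star z with hv
    have hv0 : v ≠ 0 := by rw [hv]; exact star_ne_zero.2 hz0
    have hvz : star v = z := by rw [hv, star_star]
    have hvi : (star v)⁻¹ = v := by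
      rw [hvz, hv, Complex.inv_def, Complex.normSq_eq_norm_sq, hz]
      simp
    have k1 : ∀ κ, ∑ j ∈ J, z ^ j • D.cf (star (D.b.p j (x κ)) * D.emb p) =
        D.cf (star (D.b.ev v (x κ)) * D.emb p) := by
      intro κ
      rw [hcf, hvz]
    have k2 : ∀ κ, (nsq (D.cf (star (D.b.ev v (x κ)) * D.emb p)) : ℂ) =
        Sys.ip (D.cf (D.b.ev v (x κ) * star (D.b.ev v (x κ)) * D.emb p)) p := by
      intro κ
      have e0 : D.emb (D.cf (star (D.b.ev v (x κ)) * D.emb p)) = star (D.b.ev v (x κ)) * D.emb p :=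
        c3 _ (hs1 v κ)
      have := h4 n L D (D.b.ev v (x κ)) (D.cf (star (D.b.ev v (x κ)) * D.emb p)) p
        (by rw [e0, ← mul_assoc]; exact hs2 v κ) (hs1 v κ)
      rw [e0, ← mul_assoc] at this
      rw [this, ip_self]
    have k3 : ∑ κ : Fin n1 → Fin n, D.b.ev v (x κ) * star (D.b.ev v (x κ)) = 1 := by
      have : ∀ κ : Fin n1 → Fin n, D.b.ev v (x κ) * star (D.b.ev v (x κ)) =
          D.b.ev v (x κ * star (x κ)) := by
        intro κ
        rw [a6 v (x κ) hv0, hvi, a2 v _ _ hv0]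
      rw [Finset.sum_congr rfl fun κ _ => this κ, ← map_sum, b5 n1, a3]
    have k4 : ∑ κ : Fin n1 → Fin n,
        (nsq (∑ j ∈ J, z ^ j • D.cf (star (D.b.p j (x κ)) * D.emb p)) : ℂ) = (nsq p : ℂ) := by
      rw [Finset.sum_congr rfl fun κ _ => by rw [k1 κ, k2 κ], ← ip_sum, ← map_sum, ← Finset.sum_mul,
        k3, one_mul, c2, ip_self]
    have k5 : ((∑ κ : Fin n1 → Fin n,
        nsq (∑ j ∈ J, z ^ j • D.cf (star (D.b.p j (x κ)) * D.emb p)) : ℝ) : ℂ) = (nsq p : ℂ) := by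
      push_cast
      exact k4
    exact le_of_eq (by exact_mod_cast k5)
  have := maxmod J hJ1 (fun κ j => D.cf (star (D.b.p j (x κ)) * D.emb p)) (nsq p) circ t ht ht1
  refine le_trans (le_of_eq ?_) this
  refine Finset.sum_congr rfl fun κ _ => ?_
  change nsq (D.cf (star (D.b.ev (t : ℂ) (x κ)) * D.emb p)) = _
  rw [hcf]
  congr 1
  refine Finset.sum_congr rfl fun j _ => ?_
  rw [Complex.star_def, Complex.conj_ofReal]

end Pool.Agent.Helper60.SI
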