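import Pool.Agent.Helper99.SI.StF

/-!
# Project SI, module F6: real and complex factors
-/

set_option autoImplicit false

namespace Pool.Agent.Helper60.SI

open Pool.Agent.Helper99.SI Filter Topology

/-- F6 -/
theorem hF6 : StF6 := by
  intro a b U hab hU f g h hg hg0 hf hfg hfin
  have him : ∀ x ∈ U, (g x).im = 0 := by
    have h1 : ∀ x ∈ U, h x ≠ 0 → (g x).im = 0 := by
      intro x hx hx0
      have h2 := hf x hx
      rw [hfg x hx, Complex.mul_im, Complex.ofReal_im, Complex.ofReal_re, mul_zero, zero_add] at h2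
      exact (mul_eq_zero.1 h2).resolve_right hx0
    intro x hx
    have hxb : x < b := by
      rcases hU with rfl | rfl
      · exact hx.2
      · exact hx.2
    have hsub : Set.Ioo x b ⊆ U := by
      intro y hy
      rcases hU with rfl | rfl
      · exact ⟨hx.1.trans hy.1.le, hy.2⟩
      · exact ⟨lt_trans hx.1 hy.1, hy.2⟩
    have hI : Set.Ioo x b ∈ 𝓝[>] x := Ioo_mem_nhdsGT hxb
    have hF : ({x ∈ U | h x = 0} \ {x})ᶜ ∈ 𝓝[>] x := by
      refine mem_nhdsWithin_of_mem_nhds ?_
      exact ((hfin.subset Set.sdiff_subset).isClosed.isOpen_compl).mem_nhds (by simp)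
    have hev : ∀ᶠ y in 𝓝[>] x, (g y).im = 0 := by
      filter_upwards [hI, hF] with y hy1 hy2
      refine h1 y (hsub hy1) fun h0 => hy2 ⟨⟨hsub hy1, h0⟩, ?_⟩
      intro h3
      rw [Set.mem_singleton_iff] at h3
      exact absurd hy1.1 (by rw [h3]; exact lt_irrefl x)
    have ht : Tendsto (fun y => (g y).im) (𝓝[>] x) (𝓝 (g x).im) := by
      have h3 : Tendsto g (𝓝[U] x) (𝓝 (g x)) := hg x hx
      have h4 : 𝓝[>] x ≤ 𝓝[U] x := by
        rw [← nhdsWithin_Ioo_eq_nhdsGT hxb]
        exact nhdsWithin_mono x hsub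
      exact (Complex.continuous_im.tendsto _).comp (h3.mono_left h4)
    exact tendsto_nhds_unique ht (tendsto_const_nhds.congr' (hev.mono fun y hy => hy.symm))
  refine ⟨fun x hx h0 => hg0 x hx (Complex.ext h0 (him x hx)), fun x hx => ?_⟩
  rw [hfg x hx, Complex.mul_re, Complex.ofReal_im, Complex.ofReal_re, mul_zero, sub_zero]

end Pool.Agent.Helper60.SI
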