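import Pool.Agent.Helper99.SI.StM

/-!
# Project SI, module M4: Claim 1 at a fixed parameter
-/

set_option autoImplicit false

namespace Pool.Agent.Helper60.SI

open Pool.Agent.Helper99.SI LaurentPolynomial

/-- M4 -/
theorem hM4 (h1 : StM0) (h2 : StM3) : StM4 := by
  intro n L _ _ _ _ _ D t ht M
  classical
  obtain ⟨Fs, hFs⟩ := h2 n L D {1} (Set.finite_singleton 1) (by
    intro x hx
    rw [Set.mem_singleton_iff] at hx
    subst hx
    exact D.b.one) M
  obtain ⟨-, -, -, -, -, e6, e7, e8, e9, e10, -, -⟩ := h1 L D.b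
  refine ⟨Fs.image (evl t), fun γ q => ?_⟩
  set W0 : Submodule ℂ L := Submodule.span ℂ
        ({y | ∃ ν : W n, M ≤ ν.length ∧ y = D.b.ev t (D.w ν)} ∪
          {y | ∃ ν : W n, M ≤ ν.length ∧ y = star (D.w ν)} ∪ (Fs.image (evl t) : Set L)) with hW0
  have key : ∀ y ∈ D.PN M ⊔ Submodule.span AA (Fs : Set (LL L)), evl t y ∈ W0 := by
    intro y hy
    rw [Sys.PN, ← Submodule.span_union] at hy
    induction hy using Submodule.span_induction with
    | mem x hx =>
      rcases hx with (⟨ν, hν, rfl⟩ | ⟨ν, hν, rfl⟩) | hx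
      · rw [e9]
        exact Submodule.subset_span (Or.inl (Or.inl ⟨ν, hν, rfl⟩))
      · rw [e10]
        exact Submodule.subset_span (Or.inl (Or.inr ⟨ν, hν, rfl⟩))
      · refine Submodule.subset_span (Or.inr ?_)
        rw [Finset.mem_coe, Finset.mem_image]
        exact ⟨x, hx, rfl⟩
    | zero =>
      have : evl t (0 : LL L) = 0 := by simp [evl]
      rw [this]
      exact W0.zero_mem
    | add x y _ _ hx hy =>
      rw [e7]
      exact W0.add_mem hx hy
    | smul a x _ hx =>
      rw [e8 t a x ht]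
      exact W0.smul_mem _ hx
  have hmem : (C (star (D.w γ)) * C 1 * D.b.bt (D.w q) : LL L) ∈ D.YY {1} :=
    Submodule.subset_span ⟨1, rfl, γ, q, rfl⟩
  have := key _ (hFs hmem)
  rw [e6 _ _ _ ht, e6 _ _ _ ht, e10, e10, e9, mul_one] at this
  exact this

end Pool.Agent.Helper60.SI
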