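import Pool.Agent.Helper99.SI.StS

/-!
# Project SI, module S6: positive definite operators have a positive Schur determinant
-/

set_option autoImplicit false

namespace Pool.Agent.Helper60.SI

open Pool.Agent.Helper99.SI Matrix
open scoped ComplexOrder

/-- S6 -/
theorem hS6 : StS6 := by
  intro H _ _ _ ι _ _ e he T S c hc hT hpos hS
  obtain ⟨w, hw, hTw⟩ := hS
  have hee : ∀ i k : ι, inner ℂ (e i) (e k) = if i = k then (1 : ℂ) else 0 := fun i k => by
    have := orthonormal_iff_ite.1 he i k
    simpa using this
  -- the vectors `z a`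
  have hez : ∀ (a : ι → ℂ) (i : ι), inner ℂ (e i) (∑ j, a j • (e j + w j)) = a i := by
    intro a i
    rw [inner_sum]
    have : ∀ j, inner ℂ (e i) (a j • (e j + w j)) = if i = j then a j else 0 := by
      intro j
      rw [inner_smul_right, inner_add_right, hw, add_zero, hee]
      split_ifs <;> simp
    rw [Finset.sum_congr rfl fun j _ => this j]
    simp
  have hTz : ∀ a : ι → ℂ, T (∑ j, a j • (e j + w j)) = ∑ i, (S *ᵥ a) i • e i := by
    intro a
    rw [map_sum]
    have : ∀ j, T (a j • (e j + w j)) = ∑ i, (S i j * a j) • e i := by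
      intro j
      rw [map_smul, hTw, Finset.smul_sum]
      refine Finset.sum_congr rfl fun i _ => ?_
      rw [smul_smul, mul_comm]
    rw [Finset.sum_congr rfl fun j _ => this j, Finset.sum_comm]
    refine Finset.sum_congr rfl fun i _ => ?_
    rw [← Finset.sum_smul]
    rfl
  have hin : ∀ a : ι → ℂ, ∀ b : ι → ℂ,
      inner ℂ (∑ j, a j • (e j + w j)) (T (∑ j, b j • (e j + w j))) = star a ⬝ᵥ (S *ᵥ b) := by
    intro a b
    rw [hTz, inner_sum]
    refine Finset.sum_congr rfl fun i _ => ?_
    rw [inner_smul_right, ← inner_conj_symm, hez, Pi.star_apply, mul_comm]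
    rfl
  have hsy : ∀ a b : ι → ℂ, star a ⬝ᵥ (S *ᵥ b) = star (star b ⬝ᵥ (S *ᵥ a)) := by
    intro a b
    rw [← hin, ← hin, ← hT]
    exact (inner_conj_symm _ _).symm
  have hherm : S.IsHermitian := by
    ext i k
    have h1 := hsy (Pi.single i 1) (Pi.single k 1)
    simp only [Pi.star_single, star_one, mulVec_single_one, single_one_dotProduct, col_apply] at h1
    rw [conjTranspose_apply, h1]
  have hpd : S.PosDef := by
    refine Matrix.PosDef.of_dotProduct_mulVec_pos hherm fun a ha => ?_
    have h1 : (star a ⬝ᵥ (S *ᵥ a)).im = 0 := by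
      have := hsy a a
      have h2 := congrArg Complex.im this
      simp only [Complex.star_def, Complex.conj_im] at h2
      linarith
    have h2 : 0 < (star a ⬝ᵥ (S *ᵥ a)).re := by
      rw [← hin]
      refine lt_of_lt_of_le ?_ (hpos _)
      have : (∑ j, a j • (e j + w j)) ≠ 0 := by
        intro h0
        apply ha
        ext i
        have := hez a i
        rw [h0, inner_zero_right] at this
        simpa using this.symm
      positivity
    rw [Complex.lt_def]
    exact ⟨by simpa using h2, by simpa using h1.symm⟩
  have := hpd.det_pos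
  rw [Complex.lt_def] at this
  exact ⟨by simpa using this.1, by simpa using this.2.symm⟩

end Pool.Agent.Helper60.SI
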