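import Pool.Agent.Helper99.SI.StT

set_option autoImplicit false

namespace Pool.Agent.Helper60.SI

open Pool.Agent.Helper99.SI Pool.Agent.Helper92 Pool.Agent.Helper92.LV

/-- component of a product whose right factor is homogeneous. -/
lemma p_mul_right {L : Type} [Ring L] [Algebra ℂ L] [StarRing L] [StarModule ℂ L] (B : ZGr L)
    (hA0 : StA0) (k d : ℤ) (y z : L) (hz : ∀ j, B.p j z = if j = d then z else 0) :
    B.p k (y * z) = B.p (k - d) y * z := by
  obtain ⟨h1, -⟩ := hA0 L B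
  rw [h1 k y z]
  rw [finsum_eq_single _ (k - d)]
  · rw [hz]; simp
  · intro i hi
    rw [hz]
    rw [if_neg (by intro h; apply hi; omega)]
    simp

/-- component of a product whose left factor is homogeneous. -/
lemma p_mul_left {L : Type} [Ring L] [Algebra ℂ L] [StarRing L] [StarModule ℂ L] (B : ZGr L)
    (hA0 : StA0) (k d : ℤ) (y z : L) (hy : ∀ j, B.p j y = if j = d then y else 0) :
    B.p k (y * z) = y * B.p (k - d) z := by
  obtain ⟨h1, -⟩ := hA0 L B
  rw [h1 k y z]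
  rw [finsum_eq_single _ d]
  · rw [hy]; simp
  · intro i hi
    rw [hy]
    rw [if_neg hi]
    simp

lemma p_star {L : Type} [Ring L] [Algebra ℂ L] [StarRing L] [StarModule ℂ L] (B : ZGr L)
    (d : ℤ) (y : L) (hy : ∀ j, B.p j y = if j = d then y else 0) :
    ∀ j, B.p j (star y) = if j = -d then star y else 0 := by
  intro j
  have h := B.st (-j) y
  rw [neg_neg] at h
  rw [h, hy]
  by_cases hj : j = -d
  · subst hj; simp
  · rw [if_neg hj, if_neg (by intro h; apply hj; omega)]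
    simp

theorem hT5 (h1 : StA0) (h2 : StT1) (h3 : StT2) (h4 : StT4) : StT5 := by
  intro n V E _ _ _ _ G L _ _ _ _ T hn hc hG j
  have hout : ∀ a : V, ∃ x : E, G.s x = a := by
    intro a
    obtain ⟨e, e', -, h, -⟩ := hG a
    exact ⟨e, h⟩
  obtain ⟨-, -, -, -, -, hlev, -⟩ := h2 n V E G L T (by omega)
  obtain ⟨-, ⟨m, hm⟩, -⟩ := h3 n V E G L T hn hc hG
  obtain ⟨hQ, hpe, hO⟩ := h4 n V E G L T hout
  -- LB for words
  have LB : ∀ μ : W n, ∀ i : ℤ, i < -(m : ℤ) → T.b.p i (wd T.fE.e μ) = 0 := by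
    intro μ i hi
    obtain ⟨Q, hQl, hQs⟩ := hQ m
    have e1 : wd T.fE.e μ = ∑ p ∈ Q, (wd T.fE.e μ * T.f.pe p) * star (T.f.pe p) := by
      conv_lhs => rw [← mul_one (wd T.fE.e μ), ← hQs, Finset.mul_sum]
      refine Finset.sum_congr rfl fun p _ => ?_
      rw [mul_assoc]
    rw [e1, map_sum]
    refine Finset.sum_eq_zero fun p hp => ?_
    rw [p_mul_right T.b h1 i (-(p.len : ℤ)) _ _ (p_star T.b p.len _ (hpe p))]
    rw [hO _ (hm μ p (by rw [hQl p hp])) _ (by rw [hQl p hp]; omega)]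
    rw [zero_mul]
  have LBS : ∀ s ∈ Submodule.span ℂ (Set.range (wd T.fE.e)), ∀ i : ℤ, i < -(m : ℤ) →
      T.b.p i s = 0 := by
    intro s hs i hi
    have : Submodule.span ℂ (Set.range (wd T.fE.e)) ≤ LinearMap.ker (T.b.p i) := by
      rw [Submodule.span_le]
      rintro _ ⟨μ, rfl⟩
      exact LB μ i hi
    exact this hs
  obtain ⟨Q, hQl, hQs⟩ := hQ (j + m).toNat
  have hJ : j + m ≤ ((j + m).toNat : ℤ) := Int.self_le_toNat _
  choose l hl using fun p : Pa G => hlev (star (T.f.pe p))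
  refine ⟨Q.sup l, ?_⟩
  intro μ hμ i hi
  have e1 : wd T.fE.e μ = ∑ p ∈ Q, T.f.pe p * (star (T.f.pe p) * wd T.fE.e μ) := by
    conv_lhs => rw [← one_mul (wd T.fE.e μ), ← hQs, Finset.sum_mul]
    refine Finset.sum_congr rfl fun p _ => ?_
    rw [mul_assoc]
  rw [e1, map_sum]
  refine Finset.sum_eq_zero fun p hp => ?_
  rw [p_mul_left T.b h1 i p.len _ _ (hpe p)]
  rw [LBS _ (hl p μ ((Finset.le_sup hp).trans hμ)) _ (by rw [hQl p hp]; omega)]
  rw [mul_zero]

end Pool.Agent.Helper60.SI
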